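import Mathlib
import Pool.Agent.W922.GY2.Stm

/-!
Project GY2, part LEMB: Gleason's self-improvement step.
-/

namespace Pool.Agent.W786.GY2

open Filter Topology MeasureTheory Set
open scoped Pointwise
open Pool.Agent.W922.GY2

theorem lemB (hCPT : S_CPT) (hUC : S_UC) (hETA : S_ETA) (hPSI : S_PSI) (hCVB : S_CVB)
    (hCVD : S_CVD) (hTAY : S_TAY) : S_LEMB := by
  intro G _ _ _ _ _ U W hU hWo h1W hWWW c hc
  letI : MeasurableSpace G := borel G
  haveI : BorelSpace G := ⟨rfl⟩
  obtain ⟨μ, hμ⟩ : ∃ μ : Measure G, μ.IsHaarMeasure := ⟨Measure.haar, inferInstance⟩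
  haveI := hμ
  have h1U : (1 : G) ∈ U := mem_of_mem_nhds hU.nhd
  have hWWU : W * W ⊆ U := by
    intro x hx
    apply hWWW
    have : x * 1 ∈ W * W * W := Set.mul_mem_mul hx h1W
    simpa using this
  have hUK : U ⊆ U * U := by
    intro x hx
    have : x * 1 ∈ U * U := Set.mul_mem_mul hx h1U
    simpa using this
  have hK : IsCompact (U * U) := hU.cpt.mul hU.cpt
  obtain ⟨η, hηc, hηs, hη01, hηW, hκ⟩ := hETA G μ W hWo h1W
  set κ : ℝ := ∫ y in W, η y⁻¹ ∂μ with hκdef
  set m : ℝ := (μ (U * U)).toReal with hm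
  have hm0 : 0 ≤ m := ENNReal.toReal_nonneg
  have hc' : 0 < c * κ / (m + 1) := by positivity
  set c' : ℝ := c * κ / (m + 1) with hc'def
  have hmc' : m * c' ≤ c * κ := by
    rw [hc'def, mul_div_assoc', div_le_iff₀ (by positivity)]
    have : 0 ≤ c * κ := by positivity
    nlinarith
  obtain ⟨V, hV, hVη⟩ := hUC G η (U * U) c' hηc hηs hK hc'
  obtain ⟨N, hN, hNV⟩ := hCPT G U hU V hV
  have hN1 : (1 : ℝ) ≤ N := by exact_mod_cast hN
  refine ⟨2 * N * m / κ, by positivity, ?_⟩
  intro ε ℓ M hM hAdm hPP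
  have hℓ0 : ∀ g, 0 < ℓ g := fun g => lt_of_lt_of_le hAdm.pos (hAdm.le g)
  obtain ⟨ψ, hψl, hψ01, hψW, hψWW, hψL⟩ :=
    hPSI G W ℓ M hWo h1W hM (fun g => (hℓ0 g).le) hAdm.inv hPP
  have hψm : Measurable ψ := hψl.measurable
  have hψU : ∀ x, ψ x ≠ 0 → x ∈ U := fun x hx => hWWU (hψWW x hx)
  have hψK : ∀ x, ψ x ≠ 0 → x ∈ U * U := fun x hx => hUK (hψU x hx)
  obtain ⟨hφ0m, hφne, hφ1⟩ := hCVB G μ ψ η (U * U) W hψm hψ01 hηc hη01 hK hψK hWo hψW
  set φ : G → ℝ := cv μ ψ η with hφ
  have hφU : ∀ x, φ x ≠ 0 → x ∈ U := by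
    intro x hx
    obtain ⟨y, hy, hyx⟩ := hφne x hx
    have h1 := hψWW y hy
    have h2 := hηW _ hyx
    have h3 : y * (y⁻¹ * x) ∈ W * W * W := Set.mul_mem_mul h1 h2
    apply hWWW
    simpa using h3
  -- the Lipschitz estimate
  have hLip : ∀ g x, |φ x - φ (g⁻¹ * x)| ≤ (2 * N * m + m * c' * M) * ℓ g := by
    intro g x
    have hg := hℓ0 g
    have hrest : 0 ≤ m * c' * M * ℓ g := by positivity
    by_cases hcase : 1 ≤ 2 * N * ℓ g
    · have h1 : |φ x - φ (g⁻¹ * x)| ≤ m := by
        have ha := hφ0m x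
        have hb := hφ0m (g⁻¹ * x)
        rw [abs_le]
        constructor <;> linarith [ha.1, ha.2, hb.1, hb.2]
      have h2 : m ≤ 2 * N * m * ℓ g := by nlinarith
      nlinarith
    · push Not at hcase
      set t : ℝ := N * ℓ g with ht
      have ht0 : 0 < t := by positivity
      have ht2 : 2 * t < 1 := by rw [ht]; linarith
      set n : ℕ := Nat.ceil (1 / (2 * t)) with hn
      have hnpos : 0 < n := Nat.ceil_pos.mpr (by positivity)
      have hn1 : 1 / (2 * t) ≤ n := Nat.le_ceil _
      have hn2 : (n : ℝ) < 1 / (2 * t) + 1 := Nat.ceil_lt_add_one (by positivity)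
      have hn1' : 1 ≤ n * (2 * t) := by
        rwa [div_le_iff₀ (by positivity)] at hn1
      have hn2' : n * t < 1 := by
        have : (n : ℝ) * t < (1 / (2 * t) + 1) * t := by
          exact mul_lt_mul_of_pos_right hn2 ht0
        have h3 : (1 / (2 * t) + 1) * t = 1 / 2 + t := by
          field_simp
        rw [h3] at this
        linarith
      have hgU : g ∈ U := by
        have h1 : ((1 : ℕ) : ℝ) * ℓ g < 1 := by
          push_cast
          have : ℓ g ≤ t := by rw [ht]; nlinarith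
          linarith
        have := hAdm.esc g 1 h1
        simpa using this
      have hiV : ∀ i ≤ n, g ^ i ∈ V := by
        intro i hi
        apply hNV
        intro j hj
        rw [← pow_mul]
        apply hAdm.esc
        push_cast
        have hi' : (i : ℝ) ≤ n := by exact_mod_cast hi
        have hj' : (j : ℝ) ≤ N := by exact_mod_cast hj
        calc (i : ℝ) * j * ℓ g ≤ n * N * ℓ g := by
              apply mul_le_mul_of_nonneg_right _ hg.le
              exact mul_le_mul hi' hj' (by positivity) (by positivity)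
          _ = n * t := by rw [ht]; ring
          _ < 1 := hn2'
      have hψg : ∀ x, ψ (g⁻¹ * x) ≠ 0 → x ∈ U * U := by
        intro x hx
        have h1 := hψU _ hx
        have h2 : g * (g⁻¹ * x) ∈ U * U := Set.mul_mem_mul hgU h1
        simpa using h2
      have hmain := hTAY G φ g n m (M * ℓ g * c' * m) hnpos hφ0m (by
        intro i hi y
        exact hCVD G μ ψ η (U * U) g (g ^ i) (M * ℓ g) c' hψm hψ01 hηc hη01 hK hψK hψg
          (hψL g) (fun y hy x => hVη (g ^ i) (hiV i hi.le) y hy x) y) x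
      have hmn : m / n ≤ 2 * N * m * ℓ g := by
        have hn0 : (0 : ℝ) < n := by exact_mod_cast hnpos
        rw [div_le_iff₀ hn0]
        have : m * 1 ≤ m * (n * (2 * t)) := mul_le_mul_of_nonneg_left hn1' hm0
        rw [ht] at this
        linarith
      calc |φ x - φ (g⁻¹ * x)| ≤ m / n + M * ℓ g * c' * m := hmain
        _ ≤ 2 * N * m * ℓ g + M * ℓ g * c' * m := by linarith
        _ = (2 * N * m + m * c' * M) * ℓ g := by ring
  -- telescoping over a word
  have htel : ∀ L : List G, |φ L.prod - φ 1| ≤ (2 * N * m + m * c' * M) * cost ℓ L := by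
    intro L
    induction L with
    | nil => simp [cost]
    | cons g L ih =>
      have h1 := hLip g (g * L.prod)
      rw [inv_mul_cancel_left] at h1
      have h2 : cost ℓ (g :: L) = ℓ g + cost ℓ L := by simp [cost]
      rw [List.prod_cons, h2]
      calc |φ (g * L.prod) - φ 1| = |(φ (g * L.prod) - φ L.prod) + (φ L.prod - φ 1)| := by
            congr 1; ring
        _ ≤ |φ (g * L.prod) - φ L.prod| + |φ L.prod - φ 1| := abs_add_le _ _
        _ ≤ _ := by linarith
  have hcost : ∀ L : List G, 0 ≤ cost ℓ L := by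
    intro L
    unfold cost
    apply List.sum_nonneg
    intro x hx
    obtain ⟨g, -, rfl⟩ := List.mem_map.mp hx
    exact (hℓ0 g).le
  intro L hL
  by_contra hLU
  have hz : φ L.prod = 0 := by
    by_contra h
    exact hLU (hφU _ h)
  have h1 := htel L
  rw [hz, zero_sub, abs_neg, abs_of_nonneg (hφ0m 1).1] at h1
  have h2 := hcost L
  have h3 : 2 * N * m + m * c' * M ≤ κ * (2 * N * m / κ + c * M) := by
    have : κ * (2 * N * m / κ + c * M) = 2 * N * m + (c * κ) * M := by
      field_simp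
    rw [this]
    nlinarith
  have h4 : κ ≤ κ * ((2 * N * m / κ + c * M) * cost ℓ L) := by
    calc κ ≤ φ 1 := hφ1
      _ ≤ (2 * N * m + m * c' * M) * cost ℓ L := h1
      _ ≤ κ * (2 * N * m / κ + c * M) * cost ℓ L := mul_le_mul_of_nonneg_right h3 h2
      _ = _ := by ring
  have h5 : κ * ((2 * N * m / κ + c * M) * cost ℓ L) < κ * 1 :=
    mul_lt_mul_of_pos_left hL hκ
  linarith

end Pool.Agent.W786.GY2
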